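import Mathlib
import Pool.Agent.N410.TB.Main

/-!
# Extending total colourings of distance-3 matchings in bipartite graphs

The question has a positive answer for every bipartite graph.
-/

set_option autoImplicit false

namespace Pool.Agent.Results.MP_db9399_co.AllBipartite

open Pool.Agent.R61.TotExt

/-- Let `G` be a finite bipartite graph (every edge has exactly one end in `X`) with all degrees at
most `Δ`, and let `H` be a distance-3 matching of `G` (each vertex has at most one neighbour in
`H`, and ends of different edges of `H` are at distance at least 3 in `G`). Then every total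
colouring `(f0, g0)` of `H` with `Δ + 2` colours extends to a total colouring `(f, g)` of `G` with
`Δ + 2` colours. -/
theorem result {V : Type} [Fintype V] (G H : SimpleGraph V) (Δ : ℕ) (X : Set V)
    (hX : ∀ u v, G.Adj u v → (u ∈ X ↔ v ∉ X))
    (hΔ : ∀ v, (G.neighborSet v).ncard ≤ Δ)
    (hHG : H ≤ G) (hmatch : ∀ u v w, H.Adj u v → H.Adj u w → v = w)
    (hdist : ∀ u v x y, H.Adj u v → H.Adj x y → s(u, v) ≠ s(x, y) → 3 ≤ G.edist u x)
    (f0 : V → Fin (Δ + 2)) (g0 : Sym2 V → Fin (Δ + 2)) (h0 : IsTotal H f0 g0) :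
    ∃ (f : V → Fin (Δ + 2)) (g : Sym2 V → Fin (Δ + 2)), IsTotal G f g ∧
      ∀ u v, H.Adj u v → f u = f0 u ∧ g s(u, v) = g0 s(u, v) :=
  Pool.Agent.N410.TB.ext_bip G H Δ (fun v => v ∈ X) hX hΔ hHG hmatch hdist f0 g0 h0

end Pool.Agent.Results.MP_db9399_co.AllBipartite
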