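import Pool.Agent.N410.TE.Plane

/-!
# Extending total colourings from distance-3 matchings: planar graphs and sparse graphs
-/

set_option autoImplicit false

namespace Pool.Agent.Results.MP_db9399_co.LightEdges

open Finset Pool.Agent.N410.TE

/-- The colours `c` of the vertices and `d` of the edges form a total colouring of `G`: adjacent
vertices get different colours, distinct edges with a common end get different colours, and an edge
gets a colour different from the colours of its ends. (Values of `d` at pairs that are not edges of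
`G` play no role.) -/
structure IsTotalColoring {V α : Type} (G : SimpleGraph V) (c : V → α) (d : Sym2 V → α) :
    Prop where
  vert : ∀ u v, G.Adj u v → c u ≠ c v
  edge : ∀ u v w, G.Adj u v → G.Adj u w → v ≠ w → d s(u, v) ≠ d s(u, w)
  inc : ∀ u v, G.Adj u v → d s(u, v) ≠ c u

/-- `H` (with vertex set `H.support`, the ends of its edges) is a distance-3 matching in `G`. -/
structure IsDistThreeMatching {V : Type} (G H : SimpleGraph V) : Prop where
  le : H ≤ G
  matching : ∀ u v w, H.Adj u v → H.Adj u w → v = w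
  dist : ∀ u ∈ H.support, ∀ v ∈ H.support, u ≠ v → ¬ H.Adj u v → 3 ≤ G.edist u v

/-- Every total-`k`-coloring of `H` extends to a total-`k`-coloring of `G`. -/
def Extends {V : Type} (G H : SimpleGraph V) (k : ℕ) : Prop :=
  ∀ (c : V → Fin k) (d : Sym2 V → Fin k), IsTotalColoring H c d →
    ∃ (c' : V → Fin k) (d' : Sym2 V → Fin k), IsTotalColoring G c' d' ∧
      (∀ v ∈ H.support, c' v = c v) ∧ ∀ e ∈ H.edgeSet, d' e = d e

/-- Whenever every vertex and every edge of `G` outside `H` has a list of at least `k` colours,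
every total colouring of `H` (with any colours) extends to a total colouring of `G` in which the
vertices and edges outside `H` get colours from their lists. -/
def ListExtends {V : Type} (G H : SimpleGraph V) (k : ℕ) : Prop :=
  ∀ (L : V → Finset ℕ) (M : Sym2 V → Finset ℕ), (∀ v, v ∉ H.support → k ≤ (L v).card) →
    (∀ e ∈ G.edgeSet, e ∉ H.edgeSet → k ≤ (M e).card) →
    ∀ (c : V → ℕ) (d : Sym2 V → ℕ), IsTotalColoring H c d →
      ∃ (c' : V → ℕ) (d' : Sym2 V → ℕ), IsTotalColoring G c' d' ∧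
        (∀ v ∈ H.support, c' v = c v) ∧ (∀ e ∈ H.edgeSet, d' e = d e) ∧
        (∀ v, v ∉ H.support → c' v ∈ L v) ∧
        ∀ e ∈ G.edgeSet, e ∉ H.edgeSet → d' e ∈ M e

/-- `G` is planar, in the form of a straight-line drawing (Fáry's theorem): the vertices are
distinct points of the plane, the closed segment of an edge contains no vertex other than its ends,
and the segments of two different edges meet at most in a common end. -/
def IsPlanar {V : Type} (G : SimpleGraph V) : Prop :=
  ∃ p : V → ℝ × ℝ, Function.Injective p ∧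
    (∀ u v w : V, G.Adj u v → p w ∈ segment ℝ (p u) (p v) → w = u ∨ w = v) ∧
    (∀ u v x y : V, G.Adj u v → G.Adj x y → s(u, v) ≠ s(x, y) →
      ∀ q, q ∈ segment ℝ (p u) (p v) → q ∈ segment ℝ (p x) (p y) →
        ∃ w, (w = u ∨ w = v) ∧ (w = x ∨ w = y) ∧ q = p w)

/-- the degree of `v` in `F` -/
noncomputable def deg {V : Type} (F : SimpleGraph V) (v : V) : ℕ := (F.neighborSet v).ncard

/-- the number of edges of `F` -/
noncomputable def edges {V : Type} (F : SimpleGraph V) : ℕ := F.edgeSet.ncard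

/-- the number of vertices of `F` which are not isolated -/
noncomputable def verts {V : Type} (F : SimpleGraph V) : ℕ := F.support.ncard

/-- Every subgraph has fewer than `3 n` edges, every bipartite subgraph has at most `2 n` edges
(`n` is the number of vertices of the subgraph, which has no isolated vertices). All planar and
all projective-planar graphs have this property. -/
def PlanarSparse {V : Type} (G : SimpleGraph V) : Prop :=
  ∀ F ≤ G, F ≠ ⊥ → edges F < 3 * verts F ∧ (F.IsBipartite → edges F ≤ 2 * verts F)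

/-- Every subgraph has average degree less than `m`. -/
def AverageLess {V : Type} (G : SimpleGraph V) (m : ℕ) : Prop :=
  ∀ F ≤ G, F ≠ ⊥ → 2 * edges F < m * verts F

/-- Every subgraph `F` with an edge has a vertex of degree one or two, or an edge `xy` such that
`d(x) + d(y) ≤ Δ` and `2 d(x) < Δ` (degrees in `F`). -/
def LightSubgraphs {V : Type} (G : SimpleGraph V) (Δ : ℕ) : Prop :=
  ∀ F ≤ G, F ≠ ⊥ → (∃ v, 1 ≤ deg F v ∧ deg F v ≤ 2) ∨
    ∃ x y, F.Adj x y ∧ deg F x + deg F y ≤ Δ ∧ 2 * deg F x < Δ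

section bridge

variable {V : Type} [Fintype V] [DecidableEq V]

theorem exists_graph (G : SimpleGraph V) (Q : Finset (Sym2 V)) (hQ : ∀ e ∈ Q, e ∈ G.edgeSet) :
    ∃ F ≤ G, ∀ e, e ∈ Q ↔ e ∈ F.edgeSet := by
  have h1 : ∀ e, e ∈ Q ↔ e ∈ (SimpleGraph.fromEdgeSet (Q : Set (Sym2 V))).edgeSet := by
    intro e
    rw [SimpleGraph.edgeSet_fromEdgeSet]
    constructor
    · intro he
      exact ⟨he, G.not_isDiag_of_mem_edgeSet (hQ e he)⟩
    · intro he
      exact he.1
  refine ⟨SimpleGraph.fromEdgeSet (Q : Set (Sym2 V)), fun a b hab => ?_, h1⟩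
  have h2 : s(a, b) ∈ (SimpleGraph.fromEdgeSet (Q : Set (Sym2 V))).edgeSet := hab
  exact hQ _ ((h1 _).2 h2)

theorem deg_eq {F : SimpleGraph V} {Q : Finset (Sym2 V)} (h : ∀ e, e ∈ Q ↔ e ∈ F.edgeSet) (v : V) :
    deg F v = dE Q v := by
  unfold deg dE
  rw [← Set.ncard_coe_finset]
  have h1 : ((Q.filter (fun e => v ∈ e) : Finset (Sym2 V)) : Set (Sym2 V)) =
      (fun w => s(v, w)) '' F.neighborSet v := by
    ext e
    rw [mem_coe, mem_filter, h]
    constructor
    · rintro ⟨he, w, rfl⟩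
      exact ⟨w, he, rfl⟩
    · rintro ⟨w, hw, rfl⟩
      exact ⟨hw, Sym2.mem_mk_left _ _⟩
  rw [h1, Set.ncard_image_of_injective _ (fun a b hab => Sym2.congr_right.1 hab)]

theorem edges_eq {F : SimpleGraph V} {Q : Finset (Sym2 V)} (h : ∀ e, e ∈ Q ↔ e ∈ F.edgeSet) :
    edges F = Q.card := by
  unfold edges
  rw [← Set.ncard_coe_finset]
  congr 1
  ext e
  rw [mem_coe, h]

theorem verts_eq {F : SimpleGraph V} {Q : Finset (Sym2 V)} (h : ∀ e, e ∈ Q ↔ e ∈ F.edgeSet) :
    verts F = (cov Q).card := by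
  unfold verts
  rw [← Set.ncard_coe_finset]
  congr 1
  ext v
  rw [mem_coe, mem_cov', SimpleGraph.mem_support]
  constructor
  · rintro ⟨w, hw⟩
    exact ⟨s(v, w), (h _).2 hw, Sym2.mem_mk_left _ _⟩
  · rintro ⟨e, he, w, rfl⟩
    exact ⟨w, (h _).1 he⟩

theorem ne_bot {F : SimpleGraph V} {Q : Finset (Sym2 V)} (h : ∀ e, e ∈ Q ↔ e ∈ F.edgeSet)
    (hne : Q.Nonempty) : F ≠ ⊥ := by
  rintro rfl
  obtain ⟨e, he⟩ := hne
  rw [h, SimpleGraph.edgeSet_bot] at he
  exact he

theorem setting {G H : SimpleGraph V} {Δ : ℕ} (hΔ : ∀ v, deg G v ≤ Δ)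
    (hH : IsDistThreeMatching G H) {hv : Finset V} {EG EH : Finset (Sym2 V)}
    (hhv : ∀ v, v ∈ hv ↔ v ∈ H.support) (hEG : ∀ e, e ∈ EG ↔ e ∈ G.edgeSet)
    (hEH : ∀ e, e ∈ EH ↔ e ∈ H.edgeSet) : Setting G H hv EG EH Δ where
  memG := hEG
  memH := hEH
  memv v := by rw [hhv, SimpleGraph.mem_support]
  le := hH.le
  mat := hH.matching
  near1 u hu v hv huv := by
    by_contra hn
    have h3 := hH.dist u ((hhv u).1 hu) v ((hhv v).1 hv) huv.ne hn
    have h4 := SimpleGraph.Walk.edist_le (SimpleGraph.Walk.cons huv SimpleGraph.Walk.nil)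
    have h5 := h3.trans h4
    simp only [SimpleGraph.Walk.length_cons, SimpleGraph.Walk.length_nil] at h5
    norm_cast at h5
  near2 w u hu v hv h1 h2 huv := by
    by_contra hn
    have h3 := hH.dist u ((hhv u).1 hu) v ((hhv v).1 hv) huv hn
    have h4 := SimpleGraph.Walk.edist_le
      (SimpleGraph.Walk.cons h1.symm (SimpleGraph.Walk.cons h2 SimpleGraph.Walk.nil))
    have h5 := h3.trans h4
    simp only [SimpleGraph.Walk.length_cons, SimpleGraph.Walk.length_nil] at h5
    norm_cast at h5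
  deg v := by
    rw [← deg_eq hEG v]
    exact hΔ v

end bridge

theorem extends_of_list {V : Type} {G H : SimpleGraph V} {k : ℕ} (hk : 0 < k)
    (h : ListExtends G H k) : Extends G H k := by
  intro c d hcd
  obtain ⟨c', d', h1, h2, h3, h4, h5⟩ := h (fun _ => range k) (fun _ => range k)
    (fun v _ => by rw [card_range]) (fun e _ _ => by rw [card_range])
    (fun v => (c v).1) (fun e => (d e).1)
    ⟨fun u v huv h => hcd.vert u v huv (Fin.ext h),
      fun u v w huv huw hvw h => hcd.edge u v w huv huw hvw (Fin.ext h),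
      fun u v huv h => hcd.inc u v huv (Fin.ext h)⟩
  have hc' : ∀ v, c' v < k := by
    intro v
    by_cases hv : v ∈ H.support
    · rw [h2 v hv]
      exact (c v).2
    · exact mem_range.1 (h4 v hv)
  have hd' : ∀ e ∈ G.edgeSet, d' e < k := by
    intro e he
    by_cases heH : e ∈ H.edgeSet
    · rw [h3 e heH]
      exact (d e).2
    · exact mem_range.1 (h5 e he heH)
  have hval : ∀ e, e ∈ G.edgeSet →
      (if h : d' e < k then (⟨d' e, h⟩ : Fin k) else ⟨0, hk⟩).1 = d' e := by
    intro e he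
    rw [dif_pos (hd' e he)]
  have hvalH : ∀ e, e ∈ H.edgeSet →
      (if h : d' e < k then (⟨d' e, h⟩ : Fin k) else ⟨0, hk⟩) = d e := by
    intro e he
    have h6 : d' e < k := by
      rw [h3 e he]
      exact (d e).2
    rw [dif_pos h6]
    exact Fin.ext (h3 e he)
  refine ⟨fun v => ⟨c' v, hc' v⟩, fun e => if h : d' e < k then ⟨d' e, h⟩ else ⟨0, hk⟩,
    ⟨?_, ?_, ?_⟩, ?_, hvalH⟩
  · intro u v huv h
    exact h1.vert u v huv (congrArg Fin.val h)
  · intro u v w huv huw hvw h
    have h6 := congrArg Fin.val h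
    rw [hval _ huv, hval _ huw] at h6
    exact h1.edge u v w huv huw hvw h6
  · intro u v huv h
    have h6 := congrArg Fin.val h
    rw [hval _ huv] at h6
    exact h1.inc u v huv h6
  · intro v hv
    exact Fin.ext (h2 v hv)

/-- Let `G` be a finite graph with maximum degree at most `Δ` and let `H` be a distance-3 matching
in `G`. Every total-`(Δ+2)`-coloring of `H` extends to a total-`(Δ+2)`-coloring of `G`, and even to
a total colouring from lists of size `Δ + 2`, in each of the following cases.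

* `G` is planar and `Δ ≥ 11`; more generally, every subgraph with `n` vertices has fewer than `3 n`
  edges, every bipartite subgraph with `n` vertices has at most `2 n` edges, and `Δ ≥ 11`.
* `G` is planar and triangle-free and `Δ ≥ 8`.
* All subgraphs of `G` have average degree less than `m`, `Δ ≥ 2 m` and `4 Δ ≥ m ^ 2 - m + 16`.
* `Δ ≥ 5` and every subgraph of `G` with an edge has a vertex of degree one or two (so all
  2-degenerate graphs are included) or an edge `xy` with `d(x) + d(y) ≤ Δ` and `2 d(x) < Δ`. -/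
theorem result {V : Type} [Finite V] (G H : SimpleGraph V) (Δ : ℕ) (hΔ : ∀ v, deg G v ≤ Δ)
    (hH : IsDistThreeMatching G H) :
    ((IsPlanar G ∧ 11 ≤ Δ) ∨ (PlanarSparse G ∧ 11 ≤ Δ) ∨
      (IsPlanar G ∧ G.CliqueFree 3 ∧ 8 ≤ Δ) ∨
      (∃ m : ℕ, 3 ≤ m ∧ AverageLess G m ∧ 2 * m ≤ Δ ∧ m ^ 2 + 16 ≤ 4 * Δ + m) ∨
      (LightSubgraphs G Δ ∧ 5 ≤ Δ)) →
    ListExtends G H (Δ + 2) ∧ Extends G H (Δ + 2) := by
  classical
  intro hcase
  have := Fintype.ofFinite V
  suffices hL : ListExtends G H (Δ + 2) from ⟨hL, extends_of_list (by omega) hL⟩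
  intro L M hL hM c d hcd
  set hv : Finset V := univ.filter (fun v => v ∈ H.support) with hhvd
  set EG : Finset (Sym2 V) := univ.filter (fun e => e ∈ G.edgeSet) with hEGd
  set EH : Finset (Sym2 V) := univ.filter (fun e => e ∈ H.edgeSet) with hEHd
  have hhv : ∀ v, v ∈ hv ↔ v ∈ H.support := by simp [hhvd]
  have hEG : ∀ e, e ∈ EG ↔ e ∈ G.edgeSet := by simp [hEGd]
  have hEH : ∀ e, e ∈ EH ↔ e ∈ H.edgeSet := by simp [hEHd]
  have S : Setting G H hv EG EH Δ := setting hΔ hH hhv hEG hEH
  have hEHG : EH ⊆ EG := fun e he => (hEG e).2 (SimpleGraph.edgeSet_mono hH.le ((hEH e).1 he))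
  have hLs : ∀ v, v ∉ hv → Δ + 2 ≤ (L v).card := fun v hv' => hL v (fun h => hv' ((hhv v).2 h))
  have hMs : ∀ e ∈ EG, e ∉ EH → Δ + 2 ≤ (M e).card := fun e he he' =>
    hM e ((hEG e).1 he) (fun h => he' ((hEH e).2 h))
  have hc0 : ∀ u v, H.Adj u v → c u ≠ c v := hcd.vert
  have hg0 : ∀ u v, H.Adj u v → d s(u, v) ≠ c u := hcd.inc
  have hdiag : ∀ Q ⊆ EG, ∀ e ∈ Q, ¬ e.IsDiag := fun Q hQ e he =>
    G.not_isDiag_of_mem_edgeSet ((hEG e).1 (hQ he))
  have hext : ∃ c' g', Good L M G hv EH c d EG univ c' g' := by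
    have hplanar : 11 ≤ Δ → (∀ Q ⊆ EG, Q.Nonempty → Q.card < 3 * (cov Q).card) →
        (∀ Q ⊆ EG, ∀ X : Finset V, (∀ e ∈ Q, ∃ x ∈ X, ∃ y, y ∉ X ∧ e = s(x, y)) →
          Q.card ≤ 2 * (cov Q).card) → ∃ c' g', Good L M G hv EH c d EG univ c' g' := by
      intro h11 h1 h2
      exact ext_all3 (r := 3) S (by omega) (by omega) rfl hLs hMs (fun Q hQ hne =>
        red_planar h11 Q (hdiag Q hQ) (h1 Q hQ hne) (fun F hF X hX => h2 F (hF.trans hQ) X hX))
        hc0 hg0 _ EG rfl hEHG (Subset.refl _)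
    have hmad : ∀ m : ℕ, 3 ≤ m → (∀ Q ⊆ EG, Q.Nonempty → 2 * Q.card < m * (cov Q).card) →
        2 * m ≤ Δ → m ^ 2 + 16 ≤ 4 * Δ + m → ∃ c' g', Good L M G hv EH c d EG univ c' g' := by
      intro m hm hav h2m h4
      refine ext_all3 (r := m - 1) S (by omega) (by omega) rfl hLs hMs (fun Q hQ hne => ?_)
        hc0 hg0 _ EG rfl hEHG (Subset.refl _)
      refine red_mad hm h2m ?_ Q (hdiag Q hQ) (fun v => (dE_mono hQ v).trans (S.deg v))
        (hav Q hQ hne)
      rw [← pow_two]
      exact h4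
    rcases hcase with ⟨hP, h11⟩ | ⟨hP, h11⟩ | ⟨hP, hT, h8⟩ | ⟨m, hm, hav, h2m, h4⟩ | ⟨hLS, h5⟩
    · exact hplanar h11
        (fun Q hQ hne => planar_three (G := G) hP (fun e he => (hEG e).1 (hQ he)) hne)
        (fun Q hQ X hX => planar_bip (G := G) hP (fun e he => (hEG e).1 (hQ he)) hX)
    · refine hplanar h11 (fun Q hQ hne => ?_) (fun Q hQ X hX => ?_)
      · obtain ⟨F, hFG, hF⟩ := exists_graph G Q (fun e he => (hEG e).1 (hQ he))
        have h1 := (hP F hFG (ne_bot hF hne)).1
        rw [edges_eq hF, verts_eq hF] at h1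
        exact h1
      · rcases Q.eq_empty_or_nonempty with rfl | hne
        · simp
        obtain ⟨F, hFG, hF⟩ := exists_graph G Q (fun e he => (hEG e).1 (hQ he))
        have h1 := (hP F hFG (ne_bot hF hne)).2 ?_
        · rw [edges_eq hF, verts_eq hF] at h1
          exact h1
        · refine ⟨SimpleGraph.Coloring.mk (fun v => if v ∈ X then 0 else 1) ?_⟩
          intro a b hab
          obtain ⟨x, hx, y, hy, hxy⟩ := hX s(a, b) ((hF _).2 hab)
          rcases Sym2.eq_iff.1 hxy with ⟨rfl, rfl⟩ | ⟨rfl, rfl⟩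
          · rw [if_pos hx, if_neg hy]
            decide
          · rw [if_pos hx, if_neg hy]
            decide
    · exact hmad 4 (by omega)
        (fun Q hQ hne => planar_tri (G := G) hP hT (fun e he => (hEG e).1 (hQ he)) hne)
        (by omega) (by omega)
    · refine hmad m hm (fun Q hQ hne => ?_) h2m h4
      obtain ⟨F, hFG, hF⟩ := exists_graph G Q (fun e he => (hEG e).1 (hQ he))
      have h1 := hav F hFG (ne_bot hF hne)
      rw [edges_eq hF, verts_eq hF] at h1
      exact h1
    · refine ext_all S h5 rfl hLs hMs (fun Q hQ hne => ?_) hc0 hg0 _ EG rfl hEHG (Subset.refl _)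
      obtain ⟨F, hFG, hF⟩ := exists_graph G Q (fun e he => (hEG e).1 (hQ he))
      rcases hLS F hFG (ne_bot hF hne) with ⟨v, hv1, hv2⟩ | ⟨x, y, hxy, h1, h2⟩
      · left
        refine ⟨v, ?_, ?_⟩
        · rw [← deg_eq hF v]
          exact hv1
        · rw [← deg_eq hF v]
          exact hv2
      · right
        refine ⟨x, y, (hF _).2 hxy, ?_, ?_⟩
        · rw [← deg_eq hF x, ← deg_eq hF y]
          exact h1
        · rw [← deg_eq hF x]
          exact h2
  obtain ⟨c', g', hg⟩ := hext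
  refine ⟨c', g', ⟨?_, ?_, ?_⟩, ?_, ?_, ?_, ?_⟩
  · intro u v huv
    exact hg.col u v ((hEG _).2 huv) (mem_univ _) (mem_univ _)
  · intro u v w huv huw hvw
    exact hg.edg _ ((hEG _).2 huv) _ ((hEG _).2 huw) (fun h => hvw (Sym2.congr_right.1 h)) u
      (Sym2.mem_mk_left _ _) (Sym2.mem_mk_left _ _)
  · intro u v huv
    exact hg.inc _ ((hEG _).2 huv) u (Sym2.mem_mk_left _ _) (mem_univ _)
  · intro v hv'
    exact hg.pc v ((hhv v).2 hv')
  · intro e he
    exact hg.pe e ((hEH e).2 he)
  · intro v hv'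
    exact hg.lc v (mem_univ _) (fun h => hv' ((hhv v).1 h))
  · intro e he he'
    exact hg.ld e ((hEG e).2 he) (fun h => he' ((hEH e).1 h))

end Pool.Agent.Results.MP_db9399_co.LightEdges
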