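import Mathlib
import Pool.Agent.N592.TC3.Main

/-!
# Extending total colourings of distance-3 matchings in graphs of maximum degree at most three
-/

set_option autoImplicit false

namespace Pool.Agent.Results.MP_db9399_co.MaxDegreeThree

/-- The colours `c` of the vertices and `d` of the edges form a total colouring of `G` with the `k`
colours in `Fin k`: adjacent vertices get different colours, distinct edges with a common end get
different colours, and an edge gets a colour different from the colours of its ends. (Values of `d`
at pairs that are not edges of `G` play no role.) -/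
structure IsTotalColoring {V : Type} {k : ℕ} (G : SimpleGraph V) (c : V → Fin k)
    (d : Sym2 V → Fin k) : Prop where
  vert : ∀ u v, G.Adj u v → c u ≠ c v
  edge : ∀ u v w, G.Adj u v → G.Adj u w → v ≠ w → d s(u, v) ≠ d s(u, w)
  inc : ∀ u v, G.Adj u v → d s(u, v) ≠ c u

/-- `H` (with vertex set `H.support`, the set of ends of the edges of `H`) is a distance-3 matching
in `G`: it is a subgraph of `G`, no two of its edges share an end, and any two vertices of `H` that
lie in different components of `H` are at distance at least 3 in `G`. -/
structure IsDistThreeMatching {V : Type} (G H : SimpleGraph V) : Prop where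
  le : H ≤ G
  matching : ∀ u v w, H.Adj u v → H.Adj u w → v = w
  dist : ∀ u ∈ H.support, ∀ v ∈ H.support, u ≠ v → ¬ H.Adj u v → 3 ≤ G.edist u v

/-- Let `G` be a finite simple graph with maximum degree `Δ ≤ 3` and let `H` be a distance-3
matching in `G`. Then every total colouring of `H` with `Δ + 2` colours extends to a total colouring
of `G` with `Δ + 2` colours. -/
theorem result {V : Type} [Fintype V] (G H : SimpleGraph V) [DecidableRel G.Adj]
    (hG : G.maxDegree ≤ 3) (hH : IsDistThreeMatching G H)
    (c : V → Fin (G.maxDegree + 2)) (d : Sym2 V → Fin (G.maxDegree + 2))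
    (hcd : IsTotalColoring H c d) :
    ∃ (c' : V → Fin (G.maxDegree + 2)) (d' : Sym2 V → Fin (G.maxDegree + 2)),
      IsTotalColoring G c' d' ∧ (∀ v ∈ H.support, c' v = c v) ∧ ∀ e ∈ H.edgeSet, d' e = d e := by
  obtain ⟨c', d', ⟨h1, h2, h3⟩, h4⟩ := Pool.Agent.N592.TC3.ext_all G H hG hH.le hH.matching hH.dist
    c d hcd.vert hcd.inc
  exact ⟨c', d', ⟨h1, h2, h3⟩, h4⟩

end Pool.Agent.Results.MP_db9399_co.MaxDegreeThree
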