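import Mathlib
import Pool.Agent.N577.DT.C
import Pool.Agent.N577.DT.D

set_option autoImplicit false

/-!
# Extending total colourings of distance-3 matchings when the vertices of large degree are sparse
-/

namespace Pool.Agent.Results.MP_db9399_co.SparseLargeDegrees

open Finset Pool.Agent.H162R2.Sparse Pool.Agent.N577.DT

/-- The colours `c` of the vertices and `d` of the edges form a total colouring of `G`: adjacent
vertices get different colours, distinct edges with a common end get different colours, and an edge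
gets a colour different from the colours of its ends. (Values of `d` at pairs that are not edges of
`G` play no role.) -/
structure IsTotalColoring {V : Type} (G : SimpleGraph V) (c : V → ℕ) (d : Sym2 V → ℕ) :
    Prop where
  vert : ∀ u v, G.Adj u v → c u ≠ c v
  edge : ∀ u v w, G.Adj u v → G.Adj u w → v ≠ w → d s(u, v) ≠ d s(u, w)
  inc : ∀ u v, G.Adj u v → d s(u, v) ≠ c u

/-- `H` (with vertex set `H.support`) is a distance-3 matching in `G`. -/
structure IsDistThreeMatching {V : Type} (G H : SimpleGraph V) : Prop where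
  le : H ≤ G
  matching : ∀ u v w, H.Adj u v → H.Adj u w → v = w
  dist : ∀ u ∈ H.support, ∀ v ∈ H.support, u ≠ v → ¬ H.Adj u v → 3 ≤ G.edist u v

/-- Every total colouring of `H` with the colours `0, …, k - 1` extends to a total colouring of
`G` with these colours. -/
def Extends {V : Type} (G H : SimpleGraph V) (k : ℕ) : Prop :=
  ∀ (c : V → ℕ) (d : Sym2 V → ℕ), IsTotalColoring H c d →
    (∀ v ∈ H.support, c v < k) → (∀ e ∈ H.edgeSet, d e < k) →
    ∃ (c' : V → ℕ) (d' : Sym2 V → ℕ), IsTotalColoring G c' d' ∧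
      (∀ v ∈ H.support, c' v = c v) ∧ (∀ e ∈ H.edgeSet, d' e = d e) ∧
      (∀ v, c' v < k) ∧ ∀ e ∈ G.edgeSet, d' e < k

/-- Whenever every vertex and every edge of `G` has a list of at least `k` colours, every total
colouring of `H` (with any colours) extends to a total colouring of `G` in which the vertices and
edges outside `H` get colours from their lists. -/
def ListExtends {V : Type} (G H : SimpleGraph V) (k : ℕ) : Prop :=
  ∀ (L : V → Finset ℕ) (M : Sym2 V → Finset ℕ), (∀ v, k ≤ (L v).card) →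
    (∀ e ∈ G.edgeSet, k ≤ (M e).card) →
    ∀ (c : V → ℕ) (d : Sym2 V → ℕ), IsTotalColoring H c d →
      ∃ (c' : V → ℕ) (d' : Sym2 V → ℕ), IsTotalColoring G c' d' ∧
        (∀ v ∈ H.support, c' v = c v) ∧ (∀ e ∈ H.edgeSet, d' e = d e) ∧
        (∀ v, v ∉ H.support → c' v ∈ L v) ∧
        ∀ e ∈ G.edgeSet, e ∉ H.edgeSet → d' e ∈ M e

/-- removing the precoloured matching -/
theorem wrap {V : Type} [Fintype V] [DecidableEq V] (G H : SimpleGraph V)
    (hH : IsDistThreeMatching G H) (D k : ℕ)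
    (hdeg : ∀ v, dg G v ≤ D) (hk : D + 1 ≤ k)
    (L : V → Finset ℕ) (M : Sym2 V → Finset ℕ) (hL : ∀ v, k ≤ (L v).card)
    (hM : ∀ e ∈ G.edgeSet, k ≤ (M e).card)
    (c : V → ℕ) (d : Sym2 V → ℕ) (hcd : IsTotalColoring H c d)
    (core : ∀ (P : Finset V) (G' : SimpleGraph V) (LE : V → V → Finset ℕ)
      (LV : V → Finset ℕ) (bad : V → Finset ℕ),
      (∀ a b, G'.Adj a b → G.Adj a b) → (∀ x y, LE x y = LE y x) →
      (∀ v, v ∉ P → (LV v).Nonempty) →
      (∀ v, v ∉ P → D ≤ (LV v).card + 1) → (∀ v ∈ P, dg G' v + 1 ≤ D) →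
      (∀ u ∈ P, ∀ v ∈ P, ¬ G'.Adj u v) →
      (∀ v, ((nb G' v).filter (fun w => w ∈ P)).card ≤ 2) →
      (∀ u v, G'.Adj u v → D ≤ (LE u v).card + 1) →
      (∀ u v, G'.Adj u v → u ∉ P → v ∉ P → D + 1 ≤ (LE u v).card) →
      (∀ v, (bad v).card ≤ 2) → (∀ v, v ∉ P → bad v = ∅) →
      (∀ u v, G'.Adj u v → LE u v = M s(u, v) \ (bad u ∪ bad v)) → LTH P G' LE LV) :
    ∃ (c' : V → ℕ) (d' : Sym2 V → ℕ), IsTotalColoring G c' d' ∧
        (∀ v ∈ H.support, c' v = c v) ∧ (∀ e ∈ H.edgeSet, d' e = d e) ∧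
        (∀ v, v ∉ H.support → c' v ∈ L v) ∧
        ∀ e ∈ G.edgeSet, e ∉ H.edgeSet → d' e ∈ M e := by
  classical
  set P : Finset V := univ.filter (fun v => v ∈ H.support) with hP
  have memP : ∀ v, v ∈ P ↔ v ∈ H.support := fun v => by simp [hP]
  have adjP : ∀ u v, H.Adj u v → u ∈ P := fun u v h => (memP u).2 ⟨v, h⟩
  -- distances
  have d1 : ∀ u ∈ P, ∀ v ∈ P, G.Adj u v → H.Adj u v := by
    intro u hu v hv huv
    by_contra hn
    have h3 := hH.dist u ((memP u).1 hu) v ((memP v).1 hv) huv.ne hn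
    have h4 := SimpleGraph.Walk.edist_le (SimpleGraph.Walk.cons huv SimpleGraph.Walk.nil)
    have h5 := h3.trans h4
    simp only [SimpleGraph.Walk.length_cons, SimpleGraph.Walk.length_nil] at h5
    norm_cast at h5
  have d2 : ∀ u ∈ P, ∀ v ∈ P, ∀ w, G.Adj w u → G.Adj w v → u ≠ v → H.Adj u v := by
    intro u hu v hv w h1 h2 huv
    by_contra hn
    have h3 := hH.dist u ((memP u).1 hu) v ((memP v).1 hv) huv hn
    have h4 := SimpleGraph.Walk.edist_le
      (SimpleGraph.Walk.cons h1.symm (SimpleGraph.Walk.cons h2 SimpleGraph.Walk.nil))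
    have h5 := h3.trans h4
    simp only [SimpleGraph.Walk.length_cons, SimpleGraph.Walk.length_nil] at h5
    norm_cast at h5
  have d3 : ∀ v, (P.filter (fun p => G.Adj v p)).card ≤ 2 := by
    intro v
    by_contra hcon
    rw [not_le, Finset.two_lt_card] at hcon
    obtain ⟨p, hp, q, hq, r, hr, hpq, hpr, hqr⟩ := hcon
    rw [Finset.mem_filter] at hp hq hr
    exact hqr (hH.matching p q r (d2 p hp.1 q hq.1 v hp.2 hq.2 hpq)
      (d2 p hp.1 r hr.1 v hp.2 hr.2 hpr))
  -- the rest of the graph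
  let G' : SimpleGraph V :=
    { Adj := fun a b => G.Adj a b ∧ ¬ H.Adj a b
      symm := ⟨fun _ _ h => ⟨h.1.symm, fun h' => h.2 h'.symm⟩⟩
      loopless := ⟨fun a h => G.loopless.irrefl a h.1⟩ }
  set LV : V → Finset ℕ := fun v => L v \ (P.filter (fun p => G.Adj v p)).image c with hLVd
  set bad : V → Finset ℕ := fun u => if u ∈ P then
    insert (c u) ((univ.filter (fun w => H.Adj u w)).image (fun w => d s(u, w))) else ∅ with hbad
  have hbadc : ∀ u, (bad u).card ≤ 2 := by
    intro u
    simp only [hbad]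
    split_ifs with hu
    · have h1 := Finset.card_insert_le (c u)
        ((univ.filter (fun w => H.Adj u w)).image (fun w => d s(u, w)))
      have h2 := Finset.card_image_le (s := univ.filter (fun w => H.Adj u w))
        (f := fun w => d s(u, w))
      have h3 : (univ.filter (fun w => H.Adj u w)).card ≤ 1 := by
        rw [Finset.card_le_one]
        intro a ha b hb
        rw [Finset.mem_filter] at ha hb
        exact hH.matching u a b ha.2 hb.2
      omega
    · simp
  have hbad0 : ∀ u, u ∉ P → bad u = ∅ := fun u hu => by simp [hbad, hu]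
  have hbad1 : ∀ u, u ∈ P → c u ∈ bad u := fun u hu => by simp [hbad, hu]
  have hbad2 : ∀ u w, H.Adj u w → d s(u, w) ∈ bad u := by
    intro u w h
    simp only [hbad, adjP u w h, if_true]
    exact Finset.mem_insert_of_mem (Finset.mem_image.2 ⟨w, by simp [h], rfl⟩)
  set LE : V → V → Finset ℕ := fun u v =>
    (if G.Adj u v then M s(u, v) else Finset.range k) \ (bad u ∪ bad v) with hLEd
  have hMk : ∀ u v, k ≤ (if G.Adj u v then M s(u, v) else Finset.range k).card := by
    intro u v
    split_ifs with h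
    · exact hM _ h
    · simp
  have hLE : ∀ u v, LE u v = LE v u := by
    intro u v
    simp only [hLEd]
    rw [Finset.union_comm, Sym2.eq_swap]
    simp only [G.adj_comm u v]
  have hLVc : ∀ v, (L v).card ≤ (LV v).card + (P.filter (fun p => G.Adj v p)).card := by
    intro v
    have h1 := Finset.le_card_sdiff ((P.filter (fun p => G.Adj v p)).image c) (L v)
    have h2 := Finset.card_image_le (s := P.filter (fun p => G.Adj v p)) (f := c)
    simp only [hLVd]
    omega
  have hLV : ∀ v, v ∉ P → D ≤ (LV v).card + 1 := by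
    intro v _
    have h1 := hLVc v
    have h3 := d3 v
    have h4 := hL v
    omega
  have hLV0 : ∀ v, v ∉ P → (LV v).Nonempty := by
    intro v hv
    rw [← Finset.card_pos]
    have h1 := hLVc v
    have h3 := d3 v
    have h4 := hL v
    rcases Nat.eq_zero_or_pos (P.filter (fun p => G.Adj v p)).card with h0 | h0
    · omega
    · obtain ⟨p, hp⟩ := Finset.card_pos.1 h0
      rw [Finset.mem_filter] at hp
      obtain ⟨q, hq⟩ := (memP p).1 hp.1
      have hvq : v ≠ q := fun h => hv (h ▸ adjP q p hq.symm)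
      have h5 : ({v, q} : Finset V) ⊆ nb G p := by
        intro x hx
        rw [Finset.mem_insert, Finset.mem_singleton] at hx
        rw [mem_nb]
        rcases hx with rfl | rfl
        · exact hp.2.symm
        · exact hH.le hq
      have h6 := Finset.card_le_card h5
      rw [Finset.card_pair hvq] at h6
      have h7 := hdeg p
      unfold dg at h7
      omega
  have hLE1 : ∀ u v, G'.Adj u v → u ∉ P → v ∉ P → D + 1 ≤ (LE u v).card := by
    intro u v _ hu hv
    simp only [hLEd, hbad0 u hu, hbad0 v hv, Finset.union_empty, Finset.sdiff_empty]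
    exact hk.trans (hMk u v)
  have hPind : ∀ u ∈ P, ∀ v ∈ P, ¬ G'.Adj u v := fun u hu v hv h => h.2 (d1 u hu v hv h.1)
  have hLE2 : ∀ u v, G'.Adj u v → D ≤ (LE u v).card + 1 := by
    intro u v huv
    have h1 : (bad u ∪ bad v).card ≤ 2 := by
      by_cases hu : u ∈ P
      · have hv : v ∉ P := fun hv => hPind u hu v hv huv
        rw [hbad0 v hv, Finset.union_empty]
        exact hbadc u
      · rw [hbad0 u hu, Finset.empty_union]
        exact hbadc v
    have h2 := Finset.le_card_sdiff (bad u ∪ bad v)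
      (if G.Adj u v then M s(u, v) else Finset.range k)
    have h3 := hMk u v
    simp only [hLEd]
    omega
  have hsub : ∀ a b, G'.Adj a b → G.Adj a b := fun a b h => h.1
  obtain ⟨cE, cV, c1, c2, c3, c4, c5, c6⟩ := core P G' LE LV bad hsub hLE hLV0 hLV
    (by
      intro p hp
      obtain ⟨q, hq⟩ := (memP p).1 hp
      refine le_trans ?_ (hdeg p)
      unfold dg
      refine Finset.card_lt_card ?_
      rw [Finset.ssubset_iff_of_subset (fun w hw => by
        rw [mem_nb] at hw ⊢
        exact hsub _ _ hw)]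
      refine ⟨q, (mem_nb G p q).2 (hH.le hq), ?_⟩
      rw [mem_nb]
      exact fun h => h.2 hq)
    hPind
    (by
      intro v
      refine le_trans (Finset.card_le_card ?_) (d3 v)
      intro w hw
      rw [Finset.mem_filter, mem_nb] at hw
      rw [Finset.mem_filter]
      exact ⟨hw.2, hsub _ _ hw.1⟩)
    hLE2 hLE1 hbadc hbad0
    (by
      intro u v huv
      simp only [hLEd]
      rw [if_pos (hsub u v huv)])
  -- the colouring
  have hsym : ∀ u v, (fun u v => if G'.Adj u v then cE u v else 0) u v =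
      (fun u v => if G'.Adj u v then cE u v else 0) v u := by
    intro u v
    show (if G'.Adj u v then cE u v else 0) = (if G'.Adj v u then cE v u else 0)
    by_cases h : G'.Adj u v
    · rw [if_pos h, if_pos h.symm]
      exact c1 u v h
    · rw [if_neg h, if_neg (fun h' => h h'.symm)]
  set d' : Sym2 V → ℕ := fun e => if e ∈ H.edgeSet then d e else
    Sym2.lift ⟨fun u v => if G'.Adj u v then cE u v else 0, hsym⟩ e with hd'
  have hd1 : ∀ u v, H.Adj u v → d' s(u, v) = d s(u, v) := by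
    intro u v h
    simp only [hd']
    rw [if_pos (by rw [SimpleGraph.mem_edgeSet]; exact h)]
  have hd2 : ∀ u v, G.Adj u v → ¬ H.Adj u v → d' s(u, v) = cE u v := by
    intro u v h h'
    simp only [hd']
    rw [if_neg (by rw [SimpleGraph.mem_edgeSet]; exact h'), Sym2.lift_mk]
    exact if_pos ⟨h, h'⟩
  have hcE : ∀ u v, G.Adj u v → ¬ H.Adj u v → cE u v ∈ M s(u, v) ∧ cE u v ∉ bad u := by
    intro u v h h'
    have h1 := c2 u v ⟨h, h'⟩
    simp only [hLEd] at h1
    rw [if_pos h, Finset.mem_sdiff, Finset.mem_union, not_or] at h1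
    exact ⟨h1.1, h1.2.1⟩
  refine ⟨fun v => if v ∈ P then c v else cV v, d', ⟨?_, ?_, ?_⟩, ?_, ?_, ?_, ?_⟩
  · have key : ∀ u v, G.Adj u v → u ∈ P → v ∉ P → c u ≠ cV v := by
      intro u v huv hu hv h
      have h1 := c4 v hv
      simp only [hLVd] at h1
      rw [Finset.mem_sdiff] at h1
      exact h1.2 (Finset.mem_image.2 ⟨u, by simp [hu, huv.symm], h⟩)
    intro u v huv
    by_cases hu : u ∈ P
    · by_cases hv : v ∈ P
      · simp only [hu, hv, if_true]
        exact hcd.vert u v (d1 u hu v hv huv)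
      · simp only [hu, hv, if_true, if_false]
        exact key u v huv hu hv
    · by_cases hv : v ∈ P
      · simp only [hu, hv, if_true, if_false]
        exact (key v u huv.symm hv hu).symm
      · simp only [hu, hv, if_false]
        exact c5 u v hu hv ⟨huv, fun h => hu (adjP u v h)⟩
  · intro u v w huv huw hvw
    by_cases h1 : H.Adj u v
    · by_cases h2 : H.Adj u w
      · exact absurd (hH.matching u v w h1 h2) hvw
      · rw [hd1 u v h1, hd2 u w huw h2]
        intro h
        exact (hcE u w huw h2).2 (h ▸ hbad2 u v h1)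
    · by_cases h2 : H.Adj u w
      · rw [hd1 u w h2, hd2 u v huv h1]
        intro h
        exact (hcE u v huv h1).2 (h ▸ hbad2 u w h2)
      · rw [hd2 u v huv h1, hd2 u w huw h2]
        exact c3 u v w ⟨huv, h1⟩ ⟨huw, h2⟩ hvw
  · intro u v huv
    by_cases h1 : H.Adj u v
    · simp only [adjP u v h1, if_true, hd1 u v h1]
      exact hcd.inc u v h1
    · rw [hd2 u v huv h1]
      by_cases hu : u ∈ P
      · simp only [hu, if_true]
        intro h
        exact (hcE u v huv h1).2 (h ▸ hbad1 u hu)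
      · simp only [hu, if_false]
        exact (c6 u v hu ⟨huv, h1⟩).symm
  · intro v hv
    simp only [(memP v).2 hv, if_true]
  · intro e he
    simp only [hd']
    rw [if_pos he]
  · intro v hv
    have hv' : v ∉ P := fun h => hv ((memP v).1 h)
    simp only [hv', if_false]
    have h1 := c4 v hv'
    simp only [hLVd] at h1
    exact (Finset.mem_sdiff.1 h1).1
  · intro e
    induction e using Sym2.ind with
    | _ u v =>
      intro he hn
      rw [SimpleGraph.mem_edgeSet] at he hn
      rw [hd2 u v he hn]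
      exact (hcE u v he hn).1

theorem LC_mono {V : Type} (G : SimpleGraph V) (L L' : V → V → Finset ℕ)
    (h : ∀ x y, G.Adj x y → L x y ⊆ L' x y) (hL : LC G L) : LC G L' := by
  obtain ⟨f, h1, h2, h3⟩ := hL
  exact ⟨f, h1, fun x y hxy => h x y hxy (h2 x y hxy), h3⟩

/-- The hypotheses. All degrees are at most `D`; the edges that meet `T` form a sparse graph: every
set `X` of vertices spans at most `a |X| / 2` of them, where `34 a (1 + log D) ≤ D`; every vertex
outside `T` has at most `b` neighbours in `T` and at most `D - 2 b - 2 - s` neighbours outside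
`T`. -/
structure FewLarge {V : Type} (G : SimpleGraph V) (D : ℕ) (T : Finset V) (a : ℝ) (b : ℕ) (s : ℝ) :
    Prop where
  deg : ∀ v, (G.neighborSet v).ncard ≤ D
  small : 34 * a * (1 + Real.log D) ≤ D
  dens : ∀ X : Finset V,
    ({e : V × V | e.1 ∈ X ∧ e.2 ∈ X ∧ G.Adj e.1 e.2 ∧ (e.1 ∈ T ∨ e.2 ∈ T)}.ncard : ℝ) ≤
      a * X.card
  few : ∀ v ∉ T, {w : V | w ∈ T ∧ G.Adj v w}.ncard ≤ b
  gap : ∀ v ∉ T, ({w : V | w ∉ T ∧ G.Adj v w}.ncard : ℝ) ≤ D - 2 * b - 2 - s

/-- the reduced graph satisfies the hypotheses of the theorem -/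
theorem core_of {V : Type} [Fintype V] [DecidableEq V] (G : SimpleGraph V) (D : ℕ)
    (T : Finset V) (a : ℝ) (b : ℕ) (s : ℝ) (hs : 0 ≤ s) (h : FewLarge G D T a b s)
    (P : Finset V) (G' : SimpleGraph V) (LE : V → V → Finset ℕ) (LV : V → Finset ℕ)
    (hsub : ∀ a b, G'.Adj a b → G.Adj a b) (hsym : ∀ x y, LE x y = LE y x)
    (hM0 : ∀ v, v ∉ P → (LV v).Nonempty) (hM : ∀ v, v ∉ P → D ≤ (LV v).card + 1)
    (hDP : ∀ v ∈ P, dg G' v + 1 ≤ D) (hP : ∀ u ∈ P, ∀ v ∈ P, ¬ G'.Adj u v)
    (hP2 : ∀ v, ((nb G' v).filter (fun w => w ∈ P)).card ≤ 2)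
    (hL : ∀ u v, G'.Adj u v → D ≤ (LE u v).card + 1)
    (hL1 : ∀ u v, G'.Adj u v → u ∉ P → v ∉ P → D + 1 ≤ (LE u v).card)
    (hcol : ∀ (d : ℕ) (W : V → Finset ℕ), d ≤ D → (d : ℝ) ≤ D - 2 * b - 2 - s →
      (∀ v, dg (cutX G' T) v ≤ d) →
      (∀ v ∉ T, (W v).card ≤ b + (if v ∈ P then 0 else 1)) →
      LC (cutX G' T) (fun x y => LE x y \ (W x ∪ W y))) : LTH P G' LE LV := by
  classical
  have hnb : ∀ v, nb G' v ⊆ nb G v := by
    intro v w hw
    rw [mem_nb] at hw ⊢
    exact hsub v w hw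
  have hdeg : ∀ v, dg G v ≤ D := by
    intro v
    rw [dg_eq_ncard]
    exact h.deg v
  refine comb_mainH P G' T D a b s hs h.small (fun v => (dg_mono hsub v).trans (hdeg v)) hDP hP hP2
    ?_ ?_ ?_ LE LV hsym hM0 hM hL hL1 hcol
  · intro X
    refine le_trans ?_ (h.dens X)
    have h1 : ((pr (Pool.Agent.H162R2.AG.A_meetX G' T)).filter
        (fun e => e.1 ∈ X ∧ e.2 ∈ X)).card ≤
        {e : V × V | e.1 ∈ X ∧ e.2 ∈ X ∧ G.Adj e.1 e.2 ∧ (e.1 ∈ T ∨ e.2 ∈ T)}.ncard := by
      rw [← Set.ncard_coe_finset]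
      apply Set.ncard_le_ncard _ (Set.toFinite _)
      intro e he
      rw [Finset.mem_coe, Finset.mem_filter, mem_pr,
        Pool.Agent.H162R2.AG.A_meetX_adj] at he
      exact ⟨he.2.1, he.2.2, hsub _ _ he.1.1, he.1.2⟩
    exact_mod_cast h1
  · intro v hv
    refine le_trans ?_ (h.few v hv)
    rw [← Set.ncard_coe_finset]
    apply Set.ncard_le_ncard _ (Set.toFinite _)
    intro w hw
    rw [Finset.mem_coe, Finset.mem_filter] at hw
    exact ⟨hw.2, (mem_nb G v w).1 (hnb v hw.1)⟩
  · intro v hv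
    refine le_trans ?_ (h.gap v hv)
    have h1 : ((nb G' v).filter (fun w => w ∉ T)).card ≤
        {w : V | w ∉ T ∧ G.Adj v w}.ncard := by
      rw [← Set.ncard_coe_finset]
      apply Set.ncard_le_ncard _ (Set.toFinite _)
      intro w hw
      rw [Finset.mem_coe, Finset.mem_filter] at hw
      exact ⟨hw.2, (mem_nb G v w).1 (hnb v hw.1)⟩
    exact_mod_cast h1

/-- the list version -/
theorem list_part : ∃ K : ℝ, ∀ ε : ℝ, 0 < ε → ∃ n₀ : ℕ, ∀ (V : Type) [Fintype V]
    (G H : SimpleGraph V) (D : ℕ) (T : Finset V) (a : ℝ) (b : ℕ) (s : ℝ),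
    IsDistThreeMatching G H → FewLarge G D T a b s →
    (K * (Real.sqrt (D * Real.log (Fintype.card V)) + Real.log (Fintype.card V)) ≤ s ∨
      n₀ ≤ Fintype.card V ∧ ε * Real.sqrt (Fintype.card V * Real.log (Fintype.card V)) ≤ s) →
    ∀ k, D + 1 ≤ k → ListExtends G H k := by
  classical
  obtain ⟨K, hK, hS⟩ := Pool.Agent.H892.LEC.col_S
  refine ⟨K, fun ε hε => ?_⟩
  obtain ⟨n₀, hD⟩ := Pool.Agent.H892.LEC.col_D ε hε
  refine ⟨n₀, ?_⟩
  intro V _ G H D T a b s hH hFL hs k hk L M hL hM c d hcd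
  have hlog : (0 : ℝ) ≤ Real.log (Fintype.card V) := Real.log_natCast_nonneg _
  have hs0 : 0 ≤ s := by
    rcases hs with hs | ⟨-, hs⟩
    · exact le_trans (by positivity) hs
    · exact le_trans (by positivity) hs
  refine wrap G H hH D k (fun v => by rw [dg_eq_ncard]; exact hFL.deg v) hk L M hL hM c d hcd ?_
  intro P G' LE LV bad hsub hsym hM0 hM hDP hP hP2 hL0 hL1 hb1 hb2 hLE
  refine core_of G D T a b s hs0 hFL P G' LE LV hsub hsym hM0 hM hDP hP hP2 hL0 hL1 ?_
  intro d W hdD hd hdeg hW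
  have hlist : ∀ x y, (cutX G' T).Adj x y → (d : ℝ) + s ≤ (LE x y \ (W x ∪ W y)).card := by
    intro x y hxy
    obtain ⟨hxy1, hxT, hyT⟩ := (cutX_adj G' T x y).1 hxy
    have h1 := hW x hxT
    have h2 := hW y hyT
    have h3 : (LE x y).card ≤ (LE x y \ (W x ∪ W y)).card + ((W x).card + (W y).card) := by
      have e1 := Finset.le_card_sdiff (W x ∪ W y) (LE x y)
      have e2 := Finset.card_union_le (W x) (W y)
      omega
    have h4 : D ≤ (LE x y \ (W x ∪ W y)).card + (2 * b + 2) := by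
      by_cases hx : x ∈ P
      · have hy : y ∉ P := fun hy => hP x hx y hy hxy1
        rw [if_pos hx] at h1
        rw [if_neg hy] at h2
        have h5 := hL0 x y hxy1
        omega
      · by_cases hy : y ∈ P
        · rw [if_neg hx] at h1
          rw [if_pos hy] at h2
          have h5 := hL0 x y hxy1
          omega
        · rw [if_neg hx] at h1
          rw [if_neg hy] at h2
          have h5 := hL1 x y hxy1 hx hy
          omega
    have h6 : (D : ℝ) ≤ (LE x y \ (W x ∪ W y)).card + (2 * b + 2) := by exact_mod_cast h4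
    linarith
  have hsym' : ∀ x y, LE x y \ (W x ∪ W y) = LE y x \ (W y ∪ W x) := by
    intro x y
    rw [hsym x y, Finset.union_comm]
  rcases hs with hs | ⟨hn, hs⟩
  · refine hS V (cutX G' T) d hdeg _ hsym' (fun x y hxy => le_trans ?_ (hlist x y hxy))
    have h4 : Real.sqrt (d * Real.log (Fintype.card V)) ≤
        Real.sqrt (D * Real.log (Fintype.card V)) := by
      apply Real.sqrt_le_sqrt
      have h6 : (d : ℝ) ≤ D := by exact_mod_cast hdD
      exact mul_le_mul_of_nonneg_right h6 hlog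
    have h7 : K * Real.sqrt (d * Real.log (Fintype.card V)) ≤
        K * Real.sqrt (D * Real.log (Fintype.card V)) :=
      mul_le_mul_of_nonneg_left h4 (by linarith)
    linarith
  · exact hD V (cutX G' T) d hn hdeg _ hsym'
      (fun x y hxy => le_trans (by linarith) (hlist x y hxy))

/-- the version with ordinary colours -/
theorem plain_part (V : Type) [Fintype V] (G H : SimpleGraph V) (D : ℕ) (T : Finset V) (a : ℝ)
    (b : ℕ) (hH : IsDistThreeMatching G H)
    (hFL : FewLarge G D T a b (2500 * (b + 2) * (1 + Real.log D))) (k : ℕ) (hk : D + 1 ≤ k) :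
    Extends G H k := by
  classical
  intro c d hcd hc hd
  set s : ℝ := 2500 * (b + 2) * (1 + Real.log D) with hs
  have hlogD : 0 ≤ Real.log (D : ℝ) := Real.log_natCast_nonneg D
  have hs0 : 0 ≤ s := by positivity
  obtain ⟨c', d', h1, h2, h3, h4, h5⟩ := wrap G H hH D k
    (fun v => by rw [dg_eq_ncard]; exact hFL.deg v) hk (fun _ => range k) (fun _ => range k)
    (fun _ => by rw [card_range]) (fun _ _ => by rw [card_range]) c d hcd (by
    intro P G' LE LV bad hsub hsym hM0 hM hDP hP hP2 hL0 hL1 hb1 hb2 hLE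
    refine core_of G D T a b s hs0 hFL P G' LE LV hsub hsym hM0 hM hDP hP hP2 hL0 hL1 ?_
    intro d W hdD hd hdeg hW
    have hWc : ∀ v ∉ T, (W v ∪ bad v).card ≤ b + 2 := by
      intro v hv
      have e1 := hW v hv
      have e2 := Finset.card_union_le (W v) (bad v)
      by_cases hvP : v ∈ P
      · rw [if_pos hvP] at e1
        have e4 := hb1 v
        omega
      · rw [if_neg hvP] at e1
        have e4 : (bad v).card = 0 := by rw [hb2 v hvP, card_empty]
        omega
    have hkr : (D : ℝ) + 1 ≤ k := by exact_mod_cast hk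
    have hb0 : (0 : ℝ) ≤ b := by positivity
    refine LC_mono _ _ _ ?_ (edge_avoid (cutX G' T) d (b + 2) k hdeg
      (fun v => if v ∈ T then ∅ else W v ∪ bad v) ?_ (by omega) ?_)
    · intro x y hxy
      obtain ⟨hxy1, hxT, hyT⟩ := (cutX_adj G' T x y).1 hxy
      rw [if_neg hxT, if_neg hyT, hLE x y hxy1]
      intro z hz
      simp only [Finset.mem_sdiff, Finset.mem_union, not_or] at hz ⊢
      tauto
    · intro v
      by_cases hv : v ∈ T
      · rw [if_pos hv, card_empty]
        exact Nat.zero_le _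
      · rw [if_neg hv]
        exact hWc v hv
    · have hd1 : (d : ℝ) + 1 ≤ D := by linarith
      have hd0 : (0 : ℝ) ≤ d := by positivity
      have hlog1 : Real.log ((d : ℝ) + 1) ≤ Real.log D := Real.log_le_log (by linarith) hd1
      have e1 : 2500 * ((b + 2 : ℕ) : ℝ) * (1 + Real.log ((d : ℝ) + 1)) ≤ s := by
        rw [hs]
        push_cast
        apply mul_le_mul_of_nonneg_left _ (by positivity)
        linarith
      linarith)
  refine ⟨c', d', h1, h2, h3, ?_, ?_⟩
  · intro v
    by_cases hv : v ∈ H.support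
    · rw [h2 v hv]
      exact hc v hv
    · exact Finset.mem_range.1 (h4 v hv)
  · intro e he
    by_cases heH : e ∈ H.edgeSet
    · rw [h3 e heH]
      exact hd e heH
    · exact Finset.mem_range.1 (h5 e he heH)

/-- sparse graphs: all vertices in `T` -/
theorem sparse_part (V : Type) [Fintype V] (G H : SimpleGraph V) (D : ℕ) (a : ℝ)
    (hH : IsDistThreeMatching G H) (hdeg : ∀ v, (G.neighborSet v).ncard ≤ D)
    (ha : 34 * a * (1 + Real.log D) ≤ D)
    (hdens : ∀ X : Finset V,
      ({e : V × V | e.1 ∈ X ∧ e.2 ∈ X ∧ G.Adj e.1 e.2}.ncard : ℝ) ≤ a * X.card)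
    (k : ℕ) (hk : D + 1 ≤ k) : ListExtends G H k := by
  classical
  obtain ⟨K, hK⟩ := list_part
  obtain ⟨n₀, h⟩ := hK 1 one_pos
  refine h V G H D univ a 0 (K * (Real.sqrt (D * Real.log (Fintype.card V)) +
    Real.log (Fintype.card V))) hH ⟨hdeg, ha, ?_, ?_, ?_⟩ (Or.inl le_rfl) k hk
  · intro X
    refine le_trans (le_of_eq ?_) (hdens X)
    congr 2
    ext e
    simp
  · intro v hv
    exact absurd (mem_univ v) hv
  · intro v hv
    exact absurd (mem_univ v) hv

/-- few neighbours of large degree -/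
theorem degree_part (δ : ℝ) (hδ : 0 < δ) : ∃ c : ℝ, 0 < c ∧ ∃ D₀ : ℕ,
    ∀ (V : Type) [Fintype V] (G H : SimpleGraph V) (D : ℕ), D₀ ≤ D → IsDistThreeMatching G H →
    (∀ v, (G.neighborSet v).ncard ≤ D) →
    (∀ v, ({w : V | G.Adj v w ∧ (1 - δ) * D < (G.neighborSet w).ncard}.ncard : ℝ) ≤
      c * D / Real.log D) →
    ∀ k, D + 1 ≤ k → Extends G H k := by
  classical
  set c : ℝ := min (1 / 136) (δ / 10004) with hc
  have hc0 : 0 < c := lt_min (by norm_num) (by positivity)
  have hc1 : 136 * c ≤ 1 := by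
    have := min_le_left (1 / 136 : ℝ) (δ / 10004)
    rw [← hc] at this
    linarith
  have hc2 : 5002 * c ≤ δ / 2 := by
    have := min_le_right (1 / 136 : ℝ) (δ / 10004)
    rw [← hc] at this
    linarith
  have h1 := Real.isLittleO_log_id_atTop
  have h2 := h1.bound (c := δ / 40000) (by positivity)
  have h3 := tendsto_natCast_atTop_atTop (R := ℝ).eventually h2
  obtain ⟨n₁, hn₁⟩ := Filter.eventually_atTop.1 h3
  refine ⟨c, hc0, max n₁ (max 3 ⌈8 / δ⌉₊), ?_⟩
  intro V _ G H D hD0 hH hdeg hfew k hk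
  have hD1 : n₁ ≤ D := le_trans (le_max_left _ _) hD0
  have hD3 : 3 ≤ D := le_trans (le_trans (le_max_left _ _) (le_max_right _ _)) hD0
  have hD8 : ⌈8 / δ⌉₊ ≤ D := le_trans (le_trans (le_max_right _ _) (le_max_right _ _)) hD0
  have hD3r : (3 : ℝ) ≤ D := by exact_mod_cast hD3
  have hD8r : 8 / δ ≤ D := le_trans (Nat.le_ceil _) (by exact_mod_cast hD8)
  have hlog1 : 1 ≤ Real.log D := by
    rw [Real.le_log_iff_exp_le (by linarith)]
    linarith [Real.exp_one_lt_d9]
  have hlogD : Real.log D ≤ δ / 40000 * D := by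
    have h4 := hn₁ D hD1
    rw [Real.norm_eq_abs, Real.norm_eq_abs, abs_of_nonneg (by linarith)] at h4
    simp only [id_eq] at h4
    rw [abs_of_nonneg (by linarith)] at h4
    exact h4
  have h8 : 8 ≤ δ * D := by
    rw [div_le_iff₀ hδ] at hD8r
    linarith
  set t : ℝ := c * D / Real.log D with ht
  have ht0 : 0 ≤ t := by positivity
  have htlog : t * Real.log D = c * D := by
    rw [ht]
    field_simp
  set T : Finset V := univ.filter (fun w => (1 - δ) * D < (G.neighborSet w).ncard) with hT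
  set b : ℕ := ⌊t⌋₊ with hb
  have hbt : (b : ℝ) ≤ t := Nat.floor_le ht0
  have hNT : ∀ v, (((nb G v).filter (fun w => w ∈ T)).card : ℝ) ≤ t := by
    intro v
    refine le_trans (le_of_eq ?_) (hfew v)
    rw [← Set.ncard_coe_finset]
    congr 2
    ext w
    simp [mem_nb, hT]
  refine plain_part V G H D T (2 * t) b hH ⟨hdeg, ?_, ?_, ?_, ?_⟩ k hk
  · have h5 : 34 * (2 * t) * (1 + Real.log D) ≤ 136 * (t * Real.log D) := by nlinarith
    refine h5.trans ?_
    rw [htlog]
    nlinarith
  · intro X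
    refine le_trans (le_of_eq ?_) (Pool.Agent.H162R2.AG.A_dens G T t hNT X)
    rw [← Set.ncard_coe_finset]
    congr 2
    ext e
    simp only [Set.mem_ofPred_eq, Finset.coe_filter, mem_pr,
      Pool.Agent.H162R2.AG.A_meetX_adj]
    tauto
  · intro v _
    rw [hb, Nat.le_floor_iff ht0]
    refine le_trans (le_of_eq ?_) (hNT v)
    rw [← Set.ncard_coe_finset]
    congr 2
    ext w
    simp [mem_nb, and_comm]
  · intro v hv
    have h5 : ((G.neighborSet v).ncard : ℝ) ≤ (1 - δ) * D := by
      by_contra hcon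
      exact hv (by rw [hT, mem_filter]; exact ⟨mem_univ _, not_le.1 hcon⟩)
    have h6 : ({w : V | w ∉ T ∧ G.Adj v w}.ncard : ℝ) ≤ (G.neighborSet v).ncard := by
      have : {w : V | w ∉ T ∧ G.Adj v w}.ncard ≤ (G.neighborSet v).ncard :=
        Set.ncard_le_ncard (fun w hw => hw.2) (Set.toFinite _)
      exact_mod_cast this
    refine h6.trans (h5.trans ?_)
    have h7 : 2500 * ((b : ℝ) + 2) * (1 + Real.log D) ≤ 5000 * (c * D) + 10000 * Real.log D := by
      have h8 : (0 : ℝ) ≤ b := by positivity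
      have h9 : (b : ℝ) * Real.log D ≤ c * D := by
        rw [← htlog]
        exact mul_le_mul_of_nonneg_right hbt (by linarith)
      nlinarith
    have h10 : (b : ℝ) ≤ c * D := by
      refine hbt.trans ?_
      rw [← htlog]
      nlinarith
    nlinarith

/-- all graphs, with more colours -/
theorem log_part : ∃ C : ℝ, ∀ (V : Type) [Fintype V] (G H : SimpleGraph V) (Δ : ℕ),
    IsDistThreeMatching G H → (∀ v, (G.neighborSet v).ncard ≤ Δ) →
    ∀ k : ℕ, (Δ : ℝ) + C * (1 + Real.log (Δ + 1)) ≤ k → Extends G H k := by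
  classical
  refine ⟨100002, ?_⟩
  intro V _ G H Δ hH hdeg k hk
  have hΔ0 : (0 : ℝ) ≤ Δ := by positivity
  set l : ℝ := 1 + Real.log (Δ + 1) with hl
  have hlog0 : 0 ≤ Real.log ((Δ : ℝ) + 1) := Real.log_nonneg (by linarith)
  have hl1 : 1 ≤ l := by linarith
  have hlΔ : l ≤ Δ + 1 := by
    have := Real.log_le_sub_one_of_pos (show (0 : ℝ) < (Δ : ℝ) + 1 by linarith)
    linarith
  set m : ℕ := ⌈100000 * l⌉₊ with hm
  have hm1 : 100000 * l ≤ m := Nat.le_ceil _
  have hm2 : (m : ℝ) < 100000 * l + 1 := Nat.ceil_lt_add_one (by positivity)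
  have hDk : Δ + m + 1 ≤ k := by
    have : ((Δ : ℝ) + m) + 1 ≤ k := by linarith
    exact_mod_cast this
  refine plain_part V G H (Δ + m) ∅ 0 0 hH ⟨?_, ?_, ?_, ?_, ?_⟩ k hDk
  · intro v
    exact (hdeg v).trans (Nat.le_add_right _ _)
  · push_cast
    have : (0 : ℝ) ≤ m := by positivity
    linarith
  · intro X
    have h1 : {e : V × V | e.1 ∈ X ∧ e.2 ∈ X ∧ G.Adj e.1 e.2 ∧
        (e.1 ∈ (∅ : Finset V) ∨ e.2 ∈ (∅ : Finset V))} = ∅ := by
      ext e
      simp
    rw [h1, Set.ncard_empty]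
    simp
  · intro v _
    have h1 : {w : V | w ∈ (∅ : Finset V) ∧ G.Adj v w} = ∅ := by
      ext e
      simp
    rw [h1, Set.ncard_empty]
  · intro v _
    have h1 : ({w : V | w ∉ (∅ : Finset V) ∧ G.Adj v w}.ncard : ℝ) ≤ Δ := by
      have : {w : V | w ∉ (∅ : Finset V) ∧ G.Adj v w}.ncard ≤ (G.neighborSet v).ncard :=
        Set.ncard_le_ncard (fun w hw => hw.2) (Set.toFinite _)
      exact_mod_cast this.trans (hdeg v)
    refine h1.trans ?_
    have h2 : Real.log ((Δ + m : ℕ) : ℝ) ≤ 12 + Real.log ((Δ : ℝ) + 1) := by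
      have h3 : ((Δ + m : ℕ) : ℝ) ≤ 2 ^ 17 * ((Δ : ℝ) + 1) := by
        push_cast
        nlinarith
      have h4 : (0 : ℝ) < ((Δ + m : ℕ) : ℝ) := by
        push_cast
        nlinarith
      have h5 := Real.log_le_log h4 h3
      rw [Real.log_mul (by norm_num) (by linarith), Real.log_pow] at h5
      have := Real.log_two_lt_d9
      push_cast at h5
      push_cast
      linarith
    push_cast at h2 ⊢
    nlinarith

/-- **Extending total colourings of distance-3 matchings.**

1. Under the hypotheses `FewLarge` with `s = 2500 (b + 2) (1 + log D)`, every total colouring of a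
distance-3 matching with `k ≥ D + 1` colours extends to `G`.
2. The same for lists of `k ≥ D + 1` colours, for larger `s`.
3. The case in which `T` is the set of all vertices, with lists.
4. For every `δ > 0`: if every vertex has at most `c D / log D` neighbours of degree more than
`(1 - δ) D`.
5. For all graphs, with `k ≥ Δ + C (1 + log (Δ + 1))` colours. -/
theorem result :
    (∀ (V : Type) [Fintype V] (G H : SimpleGraph V) (D : ℕ) (T : Finset V) (a : ℝ) (b : ℕ),
      IsDistThreeMatching G H → FewLarge G D T a b (2500 * (b + 2) * (1 + Real.log D)) →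
      ∀ k : ℕ, D + 1 ≤ k → Extends G H k) ∧
    (∃ K : ℝ, ∀ ε : ℝ, 0 < ε → ∃ n₀ : ℕ, ∀ (V : Type) [Fintype V]
      (G H : SimpleGraph V) (D : ℕ) (T : Finset V) (a : ℝ) (b : ℕ) (s : ℝ),
      IsDistThreeMatching G H → FewLarge G D T a b s →
      (K * (Real.sqrt (D * Real.log (Fintype.card V)) + Real.log (Fintype.card V)) ≤ s ∨
        n₀ ≤ Fintype.card V ∧ ε * Real.sqrt (Fintype.card V * Real.log (Fintype.card V)) ≤ s) →
      ∀ k : ℕ, D + 1 ≤ k → ListExtends G H k) ∧
    (∀ (V : Type) [Fintype V] (G H : SimpleGraph V) (D : ℕ) (a : ℝ),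
      IsDistThreeMatching G H → (∀ v, (G.neighborSet v).ncard ≤ D) →
      34 * a * (1 + Real.log D) ≤ D →
      (∀ X : Finset V,
        ({e : V × V | e.1 ∈ X ∧ e.2 ∈ X ∧ G.Adj e.1 e.2}.ncard : ℝ) ≤ a * X.card) →
      ∀ k : ℕ, D + 1 ≤ k → ListExtends G H k) ∧
    (∀ δ : ℝ, 0 < δ → ∃ c : ℝ, 0 < c ∧ ∃ D₀ : ℕ,
      ∀ (V : Type) [Fintype V] (G H : SimpleGraph V) (D : ℕ), D₀ ≤ D → IsDistThreeMatching G H →
      (∀ v, (G.neighborSet v).ncard ≤ D) →
      (∀ v, ({w : V | G.Adj v w ∧ (1 - δ) * D < (G.neighborSet w).ncard}.ncard : ℝ) ≤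
        c * D / Real.log D) →
      ∀ k : ℕ, D + 1 ≤ k → Extends G H k) ∧
    (∃ C : ℝ, ∀ (V : Type) [Fintype V] (G H : SimpleGraph V) (Δ : ℕ),
      IsDistThreeMatching G H → (∀ v, (G.neighborSet v).ncard ≤ Δ) →
      ∀ k : ℕ, (Δ : ℝ) + C * (1 + Real.log (Δ + 1)) ≤ k → Extends G H k) :=
  ⟨fun V _ G H D T a b hH hFL k hk => plain_part V G H D T a b hH hFL k hk, list_part,
    fun V _ G H D a hH h1 h2 h3 k hk => sparse_part V G H D a hH h1 h2 h3 k hk,
    degree_part, log_part⟩

end Pool.Agent.Results.MP_db9399_co.SparseLargeDegrees
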